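import Mathlib
import Pool.Agent.TH779.BS.GrowSq

/-!
# The growth of ranks around typical curves of short squares, over all multiquadratic fields

The curves `E_t : y² = x (x - a) (x - b)` over `ℚ`, where `t = (a, b)` runs over the pairs of
integers, `a b (a - b) ≠ 0`, in a square of side `X` at distance at most `X ^ L` from the origin.
For all but at most `η X ^ 2` of the pairs `t` of the square the following holds for ALL pairs `t'`
of the square, all the twists of `E_{t'}` by integers `d₀` and all the fields `ℚ(√d₁, …, √d_s)` at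
once: rank and corank of the 2-primary part of the Tate-Shafarevich group are together at most
`2 ^ s (log₂ (1 + |t - t'|) + (1 / 2 + ε) log₂ |d₀ ⋯ d_s| + log₂ C)`.
-/

set_option autoImplicit false

namespace Pool.Agent.Results.MP_81dc49_nt.GrowthInSquares

open Finset

open Pool.Agent.TH841.NF.D (HasDiv crk rk)

/-- The curve `y² = x³ - 27 (A² - A B + B²) x + 27 (A + B) (9 A B - 2 (A + B)²)` over the field
`F`, which is isomorphic to `y² = x (x - A) (x - B)`, see `E_iso`. -/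
def E (A B : ℤ) (F : Type) [Field F] : WeierstrassCurve F :=
  ⟨0, 0, 0, ((-27 * (A ^ 2 - A * B + B ^ 2) : ℤ) : F),
    ((27 * (A + B) * (9 * A * B - 2 * (A + B) ^ 2) : ℤ) : F)⟩

/-- `E A B F` and `y² = x (x - A) (x - B)` are isomorphic over `F`. -/
theorem E_iso (A B : ℤ) (F : Type) [Field F] [CharZero F] :
    ∃ C : WeierstrassCurve.VariableChange F,
    C • (⟨0, -((A : F) + B), 0, (A : F) * B, 0⟩ : WeierstrassCurve F) = E A B F := by
  refine ⟨⟨(Units.mk0 (1 / 3 : F) (by norm_num)), ((A : F) + B) / 3, 0, 0⟩, ?_⟩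
  unfold E
  ext
  · simp [WeierstrassCurve.variableChange_a₁]
  · rw [WeierstrassCurve.variableChange_a₂]
    simp
    ring
  · simp [WeierstrassCurve.variableChange_a₃]
  · rw [WeierstrassCurve.variableChange_a₄]
    simp
    ring
  · rw [WeierstrassCurve.variableChange_a₆]
    simp
    ring

/-- The pairs `(a, b)` with `N₁ < a ≤ N₁ + X` and `N₂ < b ≤ N₂ + X` for which
`y² = x (x - a) (x - b)` is an elliptic curve. -/
noncomputable def Sq (N₁ N₂ : ℤ) (X : ℕ) : Finset (ℤ × ℤ) :=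
  (Ioc N₁ (N₁ + X) ×ˢ Ioc N₂ (N₂ + X)).filter (fun t => t.1 ≠ 0 ∧ t.2 ≠ 0 ∧ t.1 ≠ t.2)

/-- the distance of two pairs, in the maximum norm -/
def dst (t t' : ℤ × ℤ) : ℕ := max (t.1 - t'.1).natAbs (t.2 - t'.2).natAbs

/-- the number field `F` is generated by square roots of the integers `d i` -/
def Gen (F : Type) [Field F] [NumberField F] {s : ℕ} (d : Fin s → ℤ) : Prop :=
  ∃ x : Fin s → F, (∀ i, x i ^ 2 = (d i : F)) ∧
    IntermediateField.adjoin ℚ (Set.range x) = ⊤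

/-- the curve `W` over the number field `F` has rank and corank of the 2-primary part of the
Tate-Shafarevich group bounded by `R`: the numbers `q` for which `Ш` has a subgroup
`(ℚ₂ / ℤ₂) ^ q` are bounded, and `2 ^ (rank + largest such q) ≤ R` -/
def Bounded (R : ℝ) {F : Type} [Field F] [NumberField F] (W : WeierstrassCurve F) : Prop :=
  BddAbove {q | HasDiv W q} ∧ (2 : ℝ) ^ (rk W + crk W) ≤ R

open Classical in
/-- **Theorem.** For every `L` and all `ε, η > 0` there is `C` such that for all integers `X ≥ 1`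
and `|N₁|, |N₂| ≤ X ^ L` all but at most `η X ^ 2` pairs `t` of `Sq(N₁, N₂, X)` have the following
property: for ALL pairs `t' = (a, b)` of `Sq(N₁, N₂, X)`, all nonzero integers `d₀`, `d₁`, …, `d_s`
(`s ≥ 0`) and all the fields `F = ℚ(√d₁, …, √d_s)` the curve `y² = x (x - d₀ a) (x - d₀ b)` is over
`F` bounded by `(C (1 + |t - t'|) |d₀ d₁ ⋯ d_s| ^ (1 / 2 + ε)) ^ (2 ^ s)`. -/
theorem result (L : ℕ) (ε η : ℝ) (hε : 0 < ε) (hη : 0 < η) :
    ∃ C : ℝ, ∀ (N₁ N₂ : ℤ) (X : ℕ), 1 ≤ X → |N₁| ≤ (X : ℤ) ^ L → |N₂| ≤ (X : ℤ) ^ L →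
      (((Sq N₁ N₂ X).filter (fun t => ¬ ∀ t' ∈ Sq N₁ N₂ X, ∀ (d₀ : ℤ) (s : ℕ) (d : Fin s → ℤ),
        d₀ ≠ 0 → (∀ i, d i ≠ 0) → ∀ (F : Type) [Field F] [NumberField F], Gen F d →
          Bounded ((C * (1 + (dst t t' : ℝ)) * ((d₀ * ∏ i, d i).natAbs : ℝ) ^ (1 / 2 + ε)) ^
            (2 ^ s)) (E (d₀ * t'.1) (d₀ * t'.2) F))).card : ℝ) ≤ η * (X : ℝ) ^ 2 := by
  obtain ⟨K, _, h⟩ := Pool.Agent.TH779.BS.growthSq L ε η hε hη
  refine ⟨K, fun N₁ N₂ X hX h1 h2 => ?_⟩
  refine le_trans (Nat.cast_le.2 (card_le_card ?_)) (h N₁ N₂ X hX h1 h2)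
  intro t ht
  rw [mem_filter] at ht
  refine mem_filter.2 ⟨ht.1, fun hall => ht.2 fun t' ht' d₀ s d hd₀ hd F _ _ hF => ?_⟩
  have h3 := hall t' ht' d₀ s d hd₀ hd F hF
  have h4 : E (d₀ * t'.1) (d₀ * t'.2) F = Pool.Agent.TH841.NF.EF
      (d₀ ^ 2 * Pool.Agent.TH779.BS.SA t'.1 t'.2) (d₀ ^ 3 * Pool.Agent.TH779.BS.SB t'.1 t'.2) F := by
    unfold E Pool.Agent.TH841.NF.EF Pool.Agent.TH779.BS.SA Pool.Agent.TH779.BS.SB
    congr 2 <;> ring
  rw [h4]
  exact h3

end Pool.Agent.Results.MP_81dc49_nt.GrowthInSquares
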