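import Mathlib
import Pool.Agent.TH779.BS.GrowFG

/-!
# The growth of ranks over varying multiquadratic fields around typical integers, and along primes

Let `E` be an elliptic curve over `ℚ` with three rational points of order two and `D₀`, ..., `D_s`
nonzero polynomials with integer coefficients; let `G_1`, ..., `G_r` (`r ≥ 0`) be nonconstant
irreducible polynomials with integer coefficients, pairwise non-associated. For every `b` and all
`θ, δ, ε > 0` there is a constant `C` such that in EVERY interval `(N, N + Y]` with `N` large and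
`N ^ θ ≤ Y ≤ N`, for all but at most `ε Y / (log Y) ^ r` of the integers `n` of the interval: for
ALL `m ∈ (N, N + Y]` such that all `|G_j(m)|` are primes and ALL `t` with `|t - m| ≤ b` the
quadratic twist of `E` by `D₀(t)` has over the field `ℚ(√D₁(t), ..., √D_s(t))` a rank which,
together with the corank of the 2-primary part of the Tate-Shafarevich group, is at most
`δ log₂ (1 + |m - n|) + log₂ C`.
-/

set_option autoImplicit false

namespace Pool.Agent.Results.MP_81dc49_nt.GrowthOverFields

open Finset Polynomial Filter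

open Pool.Agent.TH841.NF.D (HasDiv crk rk)

/-- the curve `y² = x³ + A x + B` over `F` -/
def EF (A B : ℤ) (F : Type) [Field F] : WeierstrassCurve F := ⟨0, 0, 0, (A : F), (B : F)⟩

/-- the number field `F` is generated by square roots of the integers `d i` -/
def Gen (F : Type) [Field F] [NumberField F] {s : ℕ} (d : Fin s → ℤ) : Prop :=
  ∃ x : Fin s → F, (∀ i, x i ^ 2 = (d i : F)) ∧
    IntermediateField.adjoin ℚ (Set.range x) = ⊤

/-- the curve `W` over the number field `F` has rank and corank of the 2-primary part of the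
Tate-Shafarevich group bounded by `R`: the numbers `q` for which `Ш` has a subgroup
`(ℚ₂ / ℤ₂) ^ q` are bounded, and `2 ^ (rank + largest such q) ≤ R` -/
def Bounded (R : ℝ) {F : Type} [Field F] [NumberField F] (W : WeierstrassCurve F) : Prop :=
  BddAbove {q | HasDiv W q} ∧ (2 : ℝ) ^ (rk W + crk W) ≤ R

open Classical in
/-- **Theorem.** For every elliptic curve `y² = x³ + A x + B = (x - e₁) (x - e₂) (x - e₃)` with
integers `e₁`, `e₂`, `e₃`, all nonzero polynomials `D₀`, `D₁`, ..., `D_s` with integer coefficients,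
all nonconstant irreducible and pairwise non-associated polynomials `G_j` with integer coefficients
(`j < r`), every `b` and all `θ, δ, ε > 0` there is `C` such that for all large `N` and all `Y` with
`N ^ θ ≤ Y ≤ N`, for all but at most `ε Y / (log Y) ^ r` of the integers `n` of `(N, N + Y]`: for
all integers `m` with `N < m ≤ N + Y` such that all `|G_j(m)|` are primes and all integers `t` with
`|t - m| ≤ b` the `D_i(t)` are not zero and the quadratic twist of the curve by `D₀(t)` is bounded
by `C (1 + |m - n|) ^ δ` over the field generated by `√D₁(t), ..., √D_s(t)`. -/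
theorem result (A B e₁ e₂ e₃ : ℤ) (hE : 4 * A ^ 3 + 27 * B ^ 2 ≠ 0)
    (he : ∀ x : ℤ, x ^ 3 + A * x + B = (x - e₁) * (x - e₂) * (x - e₃))
    (s : ℕ) (D₀ : ℤ[X]) (D : Fin s → ℤ[X]) (hD₀ : D₀ ≠ 0) (hD : ∀ i, D i ≠ 0)
    (r : ℕ) (G : Fin r → ℤ[X]) (hG : ∀ j, Irreducible (G j) ∧ 0 < (G j).natDegree)
    (hG' : ∀ j l, j ≠ l → ¬ Associated (G j) (G l)) (b : ℕ)
    (θ δ ε : ℝ) (hθ : 0 < θ) (hδ : 0 < δ) (hε : 0 < ε) :
    ∃ C : ℝ, ∀ᶠ N : ℕ in atTop, ∀ Y : ℕ, (N : ℝ) ^ θ ≤ Y → Y ≤ N →
      (((Ioc N (N + Y)).filter (fun n : ℕ => ¬ ∀ m : ℕ, N < m → m ≤ N + Y →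
        (∀ j, ((G j).eval (m : ℤ)).natAbs.Prime) → ∀ t : ℤ, |t - m| ≤ b →
        D₀.eval t ≠ 0 ∧ (∀ i, (D i).eval t ≠ 0) ∧
        ∀ (F : Type) [Field F] [NumberField F], Gen F (fun i => (D i).eval t) →
          Bounded (C * (1 + |(m : ℝ) - (n : ℝ)|) ^ δ)
            (EF (D₀.eval t ^ 2 * A) (D₀.eval t ^ 3 * B) F))).card : ℝ) ≤
        ε * (Y / (Real.log Y) ^ r) :=
  Pool.Agent.TH779.BS.growthFG A B e₁ e₂ e₃ hE he s D₀ D hD₀ hD
    (G := G) ⟨fun j => (hG j).1, fun j => (hG j).2, fun j l hjl => hG' j l hjl⟩ b θ δ ε hθ hδ hε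

end Pool.Agent.Results.MP_81dc49_nt.GrowthOverFields
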