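import Pool.Agent.TH180.RT.Rf
import Pool.Agent.TH180.RT.Mom

/-!
# Elliptic curves `y ^ 2 = x ^ 3 + a x + b` over `k(t)` of large rank are superexponentially rare

Let `k` be a finite field with `q` elements, of characteristic at least `5`, and `K = k(t)`. We
consider the pairs `(a, b)` in `K ^ 2` with `H(a) ≤ q ^ n`, `H(b) ≤ q ^ n` and
`4 a ^ 3 + 27 b ^ 2 ≠ 0`, that is, the set `S_B` with `B = q ^ n`.
-/

set_option autoImplicit false
set_option linter.all false
set_option maxHeartbeats 1000000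

open Polynomial

namespace Pool.Agent.Results.MP_81dc49_nt.RankTails

section defs

/-- The number of solutions of `y ^ 2 = x ^ 3 + a x + b` in a ring. -/
noncomputable def affinePoints (R : Type) [CommRing R] (a b : R) : ℕ :=
  Nat.card {z : R × R // z.2 ^ 2 = z.1 ^ 3 + a * z.1 + b}

/-- `α ^ j + β ^ j`, where `α + β = a` and `α β = c`. -/
def powerTrace (a c : ℤ) (j : ℕ) : ℤ :=
  ((!![a, -c; 1, 0] : Matrix (Fin 2) (Fin 2) ℤ) ^ j).trace

variable {k : Type} [Field k]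

open Classical in
/-- The number `α ^ j + β ^ j` at the place of `k(t)` given by the prime `P`: the Euler factor of
`y ^ 2 = x ^ 3 + A x + B` is `(1 - α T) (1 - β T) = 1 - a T + c T ^ 2` in `T = q_P ^ (-s)`, with
`a = q_P - (number of affine points modulo P)`, `q_P = q ^ (deg P)`, and `c = q_P` for good reduction,
`c = 0` for bad reduction. -/
noncomputable def primeTerm (A B P : k[X]) (j : ℕ) : ℤ :=
  powerTrace
    ((Nat.card k : ℤ) ^ P.natDegree -
      affinePoints (AdjoinRoot P) (AdjoinRoot.mk P A) (AdjoinRoot.mk P B))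
    (if P ∣ 4 * A ^ 3 + 27 * B ^ 2 then 0 else (Nat.card k : ℤ) ^ P.natDegree) j

open Classical in
/-- The same at the infinite place, where the reduction is `y ^ 2 = x ^ 3 + a x + b`. -/
noncomputable def infinityTerm (a b : k) (j : ℕ) : ℤ :=
  powerTrace ((Nat.card k : ℤ) - affinePoints k a b)
    (if 4 * a ^ 3 + 27 * b ^ 2 = 0 then 0 else (Nat.card k : ℤ)) j

open Classical in
/-- The number `S_m` in `L(T, E) = exp (∑ S_m T ^ m / m)`: the sum over the places `v` with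
`deg v ∣ m` of `deg v (α_v ^ (m / deg v) + β_v ^ (m / deg v))`, for the minimal equation
`y ^ 2 = x ^ 3 + A x + B` of height `d`. -/
noncomputable def logCoeff (d : ℕ) (A B : k[X]) (m : ℕ) : ℤ :=
  infinityTerm (A.coeff (4 * d)) (B.coeff (6 * d)) m +
    ∑ᶠ P : k[X], if P.Monic ∧ Irreducible P ∧ P.natDegree ∣ m then
      (P.natDegree : ℤ) * primeTerm A B P (m / P.natDegree) else 0

/-- `y ^ 2 = x ^ 3 + A x + B` is a minimal equation of an elliptic curve over `k(t)`, of height `d`: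
`deg A ≤ 4 d` and `deg B ≤ 6 d` (and this fails for `d - 1`), the discriminant is not zero, and there is
no prime `P` with `P ^ 4 ∣ A` and `P ^ 6 ∣ B`. -/
def IsMinimal (d : ℕ) (A B : k[X]) : Prop :=
  A.natDegree ≤ 4 * d ∧ B.natDegree ≤ 6 * d ∧
    (0 < d → ¬ (A.natDegree + 4 ≤ 4 * d ∧ B.natDegree + 6 ≤ 6 * d)) ∧
    4 * A ^ 3 + 27 * B ^ 2 ≠ 0 ∧ ∀ P : k[X], Irreducible P → ¬ (P ^ 4 ∣ A ∧ P ^ 6 ∣ B)

/-- `L(T, E) = ∏ (1 - q β_i T)` has degree `N ≤ 12 d` and all `β_i` have absolute value one. -/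
def IsSpectrum (d : ℕ) (A B : k[X]) {N : ℕ} (β : Fin N → ℂ) : Prop :=
  N ≤ 12 * d ∧ (∀ i, ‖β i‖ = 1) ∧
    ∀ m : ℕ, 0 < m → (logCoeff d A B m : ℂ) = -((Nat.card k : ℂ) ^ m * ∑ i, β i ^ m)

open Classical in
/-- `L(T, E)` satisfies the Weil conjectures and vanishes to order at least `R` at `T = 1 / q`. -/
def OrderAtLeast (d : ℕ) (A B : k[X]) (R : ℕ) : Prop :=
  ∃ (N : ℕ) (β : Fin N → ℂ), IsSpectrum d A B β ∧
    R ≤ (Finset.univ.filter fun i => β i = 1).card

/-- An invariant `r(a, b)` of the curves `y ^ 2 = x ^ 3 + a x + b` over `k(t)`: isomorphic equations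
have the same `r`. -/
def IsInvariant (r : RatFunc k → RatFunc k → ℕ) : Prop :=
  ∀ u a b : RatFunc k, u ≠ 0 → 4 * a ^ 3 + 27 * b ^ 2 ≠ 0 → r (u ^ 4 * a) (u ^ 6 * b) = r a b

/-- For every minimal equation, `r` is at most the order of vanishing of `L(T, E)` at `T = 1 / q` if
the height is positive, and `r = 0` if the height is `0`, that is, if `E` is defined over `k`. -/
def AtMostOrder (r : RatFunc k → RatFunc k → ℕ) : Prop :=
  ∀ (d : ℕ) (A B : k[X]), IsMinimal d A B →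
    (d = 0 → r (algebraMap k[X] (RatFunc k) A) (algebraMap k[X] (RatFunc k) B) = 0) ∧
    (0 < d → OrderAtLeast d A B
      (r (algebraMap k[X] (RatFunc k) A) (algebraMap k[X] (RatFunc k) B)))

open Classical in
/-- The rank of the group of the `k(t)`-rational points of `y ^ 2 = x ^ 3 + a x + b`. -/
noncomputable def rank (a b : RatFunc k) : ℕ :=
  Module.finrank ℤ (WeierstrassCurve.mk 0 0 0 a b :
    WeierstrassCurve (RatFunc k)).toAffine.Point

/-- `H(x) ≤ q ^ n`: the numerator and the denominator of `x` have degree at most `n`. -/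
def HeightLE (n : ℕ) (x : RatFunc k) : Prop :=
  x.num.natDegree ≤ n ∧ x.denom.natDegree ≤ n

/-- The set `S_B` for `B = q ^ n`. -/
def S (k : Type) [Field k] (n : ℕ) : Set (RatFunc k × RatFunc k) :=
  {x | HeightLE n x.1 ∧ HeightLE n x.2 ∧ 4 * x.1 ^ 3 + 27 * x.2 ^ 2 ≠ 0}

/-- The proportion of the pairs in `S_B`, `B = q ^ n`, with `r ≥ R` is at most
`4 (44 / R) ^ ⌊R / 144⌋` for all `R ≥ 1`, and the average of `s ^ r` over `S_B` is at most `C(s)` for
all `s ≥ 0`. -/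
def Tails (n : ℕ) (r : RatFunc k → RatFunc k → ℕ) (C : ℝ → ℝ) : Prop :=
  (∀ R : ℕ, 0 < R → ({x ∈ S k n | R ≤ r x.1 x.2}.ncard : ℝ) ≤
    4 * (44 / (R : ℝ)) ^ (R / 144) * (S k n).ncard) ∧
  ∀ s : ℝ, 0 ≤ s → ∑ᶠ x ∈ S k n, s ^ r x.1 x.2 ≤ C s * (S k n).ncard

end defs

section proof

open Pool.Agent.TH180.RT

variable {k : Type} [Field k]

theorem big_iff (d R : ℕ) (A B : k[X]) : OrderAtLeast d A B R ↔ Big d R A B := by
  unfold OrderAtLeast Big IsSpectrum
  constructor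
  · rintro ⟨N, β, ⟨h1, h2, h3⟩, h4⟩
    exact ⟨N, β, h1, h2, h3, h4⟩
  · rintro ⟨N, β, h1, h2, h3, h4⟩
    exact ⟨N, β, ⟨h1, h2, h3⟩, h4⟩

theorem five_le [Finite k] (h6 : (6 : k) ≠ 0) : 5 ≤ Nat.card k := by
  classical
  let _ : Fintype k := Fintype.ofFinite k
  have h2 : (2 : k) ≠ 0 := by
    intro h
    apply h6
    have e : (6 : k) = 3 * 2 := by norm_num
    rw [e, h, mul_zero]
  have h3 : (3 : k) ≠ 0 := by
    intro h
    apply h6
    have e : (6 : k) = 2 * 3 := by norm_num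
    rw [e, h, mul_zero]
  have h4 : (4 : k) ≠ 0 := by
    have e : (4 : k) = 2 * 2 := by norm_num
    rw [e]
    exact mul_ne_zero h2 h2
  have key : ∀ x y z : k, z ≠ 0 → x - y = z → y ≠ x := by
    intro x y z hz h e
    apply hz
    rw [← h, e, sub_self]
  have n01 : (0 : k) ≠ 1 := zero_ne_one
  have n02 : (0 : k) ≠ 2 := h2.symm
  have n03 : (0 : k) ≠ 3 := h3.symm
  have n04 : (0 : k) ≠ 4 := h4.symm
  have n12 : (1 : k) ≠ 2 := key 2 1 1 one_ne_zero (by norm_num)
  have n13 : (1 : k) ≠ 3 := key 3 1 2 h2 (by norm_num)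
  have n14 : (1 : k) ≠ 4 := key 4 1 3 h3 (by norm_num)
  have n23 : (2 : k) ≠ 3 := key 3 2 1 one_ne_zero (by norm_num)
  have n24 : (2 : k) ≠ 4 := key 4 2 2 h2 (by norm_num)
  have n34 : (3 : k) ≠ 4 := key 4 3 1 one_ne_zero (by norm_num)
  have h : ({0, 1, 2, 3, 4} : Finset k).card = 5 := by
    rw [Finset.card_insert_of_notMem, Finset.card_insert_of_notMem,
      Finset.card_insert_of_notMem, Finset.card_insert_of_notMem, Finset.card_singleton]
    · simpa using n34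
    · simpa using ⟨n23, n24⟩
    · simpa using ⟨n12, n13, n14⟩
    · simpa using ⟨n02, n03, n04⟩
  rw [Nat.card_eq_fintype_card, ← h]
  exact Finset.card_le_univ _

theorem fin_S [Finite k] (n : ℕ) : (S k n).Finite := by
  classical
  let _ : Fintype k := Fintype.ofFinite k
  refine Set.Finite.subset (Finset.finite_toSet (HtF k n ×ˢ HtF k n)) ?_
  intro x hx
  rw [Finset.mem_coe, Finset.mem_product, mem_HtF, mem_HtF]
  exact ⟨hx.1, hx.2.1⟩

theorem tail_r [Finite k] (h6 : (6 : k) ≠ 0) {n : ℕ} (hn : 0 < n)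
    {r : RatFunc k → RatFunc k → ℕ} (hinv : IsInvariant r) (hr : AtMostOrder r) {R : ℕ}
    (hR : 0 < R) : ({x ∈ S k n | R ≤ r x.1 x.2}.ncard : ℝ) ≤
      4 * (44 / (R : ℝ)) ^ (R / 144) * (S k n).ncard := by
  classical
  let _ : Fintype k := Fintype.ofFinite k
  have hq5 := five_le h6
  have H : ∀ (d : ℕ) (A B : k[X]), IsMin d A B →
      (d = 0 → r (algebraMap k[X] (RatFunc k) A) (algebraMap k[X] (RatFunc k) B) = 0) ∧
      (0 < d → Big d (r (algebraMap k[X] (RatFunc k) A) (algebraMap k[X] (RatFunc k) B)) A B) :=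
    fun d A B hm => ⟨(hr d A B hm).1, fun hd => (big_iff _ _ _ _).1 ((hr d A B hm).2 hd)⟩
  have h1 := (upper h6 hq5 (n := n) hR
    (fun a b => Ht n a ∧ Ht n b ∧ 4 * a ^ 3 + 27 * b ^ 2 ≠ 0 ∧ R ≤ r a b)
    (fun a b h => ⟨h.1, h.2.1, to_big r hinv H hR h.1 h.2.1 h.2.2.1 h.2.2.2⟩)).2
  have h2 := lower h6 hq5 hn
  have e1 : {x ∈ S k n | R ≤ r x.1 x.2} = {x : RatFunc k × RatFunc k | Ht n x.1 ∧ Ht n x.2 ∧
      4 * x.1 ^ 3 + 27 * x.2 ^ 2 ≠ 0 ∧ R ≤ r x.1 x.2} := by
    ext x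
    constructor
    · rintro ⟨⟨h1, h2, h3⟩, h4⟩
      exact ⟨h1, h2, h3, h4⟩
    · rintro ⟨h1, h2, h3, h4⟩
      exact ⟨⟨h1, h2, h3⟩, h4⟩
  rw [e1]
  have h3 : 0 ≤ tl 144 R := tl_nonneg 144 R
  have h4 : ({x : RatFunc k × RatFunc k | Ht n x.1 ∧ Ht n x.2 ∧
      4 * x.1 ^ 3 + 27 * x.2 ^ 2 ≠ 0}.ncard : ℝ) = (S k n).ncard := rfl
  rw [h4] at h2
  have h5 : (44 / (R : ℝ)) ^ (R / 144) = tl 144 R := rfl
  rw [h5]
  have h6 : (0 : ℝ) ≤ ((S k n).ncard : ℝ) := Nat.cast_nonneg _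
  calc _ ≤ 25 / 16 * tl 144 R * (Nat.card k : ℝ) ^ (4 * n + 2) := h1
    _ ≤ 25 / 16 * tl 144 R * (2 * (S k n).ncard) := by
        apply mul_le_mul_of_nonneg_left _ (by positivity)
        linarith
    _ ≤ 4 * tl 144 R * (S k n).ncard := by
        have := mul_nonneg h3 h6
        linarith

theorem tails_of [Finite k] (h6 : (6 : k) ≠ 0) {n : ℕ} (hn : 0 < n)
    {r : RatFunc k → RatFunc k → ℕ} (hinv : IsInvariant r) (hr : AtMostOrder r) :
    Tails n r (cst 144 4) := by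
  classical
  refine ⟨fun R hR => tail_r h6 hn hinv hr hR, fun s hs => ?_⟩
  rw [finsum_mem_eq_finite_toFinset_sum _ (fin_S n), Set.ncard_eq_toFinset_card _ (fin_S n)]
  refine exp_moment (fin_S n).toFinset (fun x : RatFunc k × RatFunc k => r x.1 x.2) (by norm_num)
    (by norm_num) ?_ hs
  intro R hR
  have h2 := tail_r h6 hn hinv hr hR
  rw [Set.ncard_eq_toFinset_card _ (fin_S n)] at h2
  refine le_trans (le_of_eq ?_) h2
  congr 1
  rw [← Set.ncard_coe_finset]
  congr 1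
  ext x
  simp

theorem rank_inv (h6 : (6 : k) ≠ 0) : IsInvariant (rank (k := k)) :=
  fun u a b hu hΔ => rk_inv h6 u a b hu hΔ

end proof

/-- **Main theorem.** Let `k` be a finite field with `q` elements, of characteristic at least `5`, and
`n ≥ 1`. Let `r` be any invariant of elliptic curves over `k(t)` which is at most the order of vanishing
of `L(T, E)` at `T = 1 / q` (and `0` for the curves defined over `k`). Then the proportion of the pairs
`(a, b)` in `S_B`, `B = q ^ n`, with `r(a, b) ≥ R` is at most `4 (44 / R) ^ ⌊R / 144⌋`, for all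
`R ≥ 1`, and the average of `s ^ r` over `S_B` is at most `C(s)`, for all `s ≥ 0`, with `C(s)`
independent of `k` and `n`. The rank is an invariant in this sense, so that all this holds for the rank
if it is at most the order. -/
theorem result : ∃ C : ℝ → ℝ, ∀ (k : Type) [Field k] [Finite k], (6 : k) ≠ 0 → ∀ n : ℕ, 0 < n →
    (∀ r : RatFunc k → RatFunc k → ℕ, IsInvariant r → AtMostOrder r → Tails n r C) ∧
    (AtMostOrder (rank (k := k)) → Tails n (rank (k := k)) C) := by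
  refine ⟨Pool.Agent.TH180.RT.cst 144 4, fun k _ _ h6 n hn =>
    ⟨fun r h1 h2 => tails_of h6 hn h1 h2, fun h => tails_of h6 hn (rank_inv h6) h⟩⟩

end Pool.Agent.Results.MP_81dc49_nt.RankTails
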