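import Mathlib
import Pool.Agent.TH779.BS.PenF

/-!
# Families of elliptic curves over varying multiquadratic fields at the primes of short intervals

`W_t : y² = x³ + A(t) x + B(t) = (x - e₁(t)) (x - e₂(t)) (x - e₃(t))` with polynomials `e_i` such
that `e₂ - e₁ = D₀ u₀`, `e₃ - e₁ = D₀ u₁`, where `u_0`, `u_1`, `u_2 = u_0 - u_1` are constants times
products of `n_0`, `n_1`, `n_2` irreducible polynomials, all different, and `D₀` is any polynomial
not divisible by one of them. The curve `W_t` is considered over the field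
`F_t = ℚ(√D₁(t), ..., √D_r(t))`, for arbitrary polynomials `D_i` not divisible by one of these
polynomials. For a set `T` of indices let `s_k(T)` be the number of the irreducible factors of `u_k`
at which the twist of the family by `∏_{i ∈ T} D_i` has split multiplicative reduction. Assume that
`2 n_k + s_k(T) ≤ n₀ + n₁ + n₂` for all `k` and `T`, and that `D₀ u_k` and the `D_i` have no integer
zeros.

There are absolute `δ > 0` and `η > 0` such that for every such family and every `b` there is `R`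
with: for all large `x` and all `y` with `x ^ (1 - δ) ≤ y ≤ x` at least `η y / log x` primes `p`
with `x < p ≤ x + y` have the property that for ALL integers `t` with `|t - p| ≤ b` the curve `W_t`
over `F_t` has rank and corank of the 2-primary part of the Tate-Shafarevich group bounded by `R`.
-/

set_option autoImplicit false

namespace Pool.Agent.Results.MP_81dc49_nt.ShortIntervalFamilies

open Finset Polynomial

open Pool.Agent.TH841.NF.D (HasDiv crk rk)

/-- the curve `y² = x³ + A x + B` over `F` -/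
def EF (A B : ℤ) (F : Type) [Field F] : WeierstrassCurve F := ⟨0, 0, 0, (A : F), (B : F)⟩

/-- the number field `F` is generated by square roots of the integers `d i` -/
def Gen (F : Type) [Field F] [NumberField F] {r : ℕ} (d : Fin r → ℤ) : Prop :=
  ∃ x : Fin r → F, (∀ i, x i ^ 2 = (d i : F)) ∧
    IntermediateField.adjoin ℚ (Set.range x) = ⊤

/-- `u_k = a_k ∏ f_{k,i}` -/
noncomputable def u {n : Fin 3 → ℕ} (a : Fin 3 → ℤ) (f : ∀ k : Fin 3, Fin (n k) → ℤ[X])
    (k : Fin 3) : ℤ[X] := C (a k) * ∏ i, f k i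

/-- `v` is a square modulo `f`, over the rationals -/
def SqMod (f v : ℤ[X]) : Prop := ∃ q : ℚ[X], f.map (Int.castRingHom ℚ) ∣
  (q ^ 2 - v.map (Int.castRingHom ℚ))

/-- modulo a factor `f` of `u_k`, the curve `y² = x (x - D u₀) (x - D u₁)` has a node whose tangent
directions are the square roots of `v_k`; so the reduction at `f` is split if and only if `v_k` is a
square modulo `f` -/
noncomputable def v {n : Fin 3 → ℕ} (D : ℤ[X]) (a : Fin 3 → ℤ)
    (f : ∀ k : Fin 3, Fin (n k) → ℤ[X]) : Fin 3 → ℤ[X] :=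
  ![-(D * u a f 1), -(D * u a f 0), D * u a f 0]

open Classical in
/-- the number of the factors of `u_k` at which `y² = x (x - D u₀) (x - D u₁)` has split
multiplicative reduction -/
noncomputable def s {n : Fin 3 → ℕ} (D : ℤ[X]) (a : Fin 3 → ℤ)
    (f : ∀ k : Fin 3, Fin (n k) → ℤ[X]) (k : Fin 3) : ℕ :=
  (univ.filter (fun i => SqMod (f k i) (v D a f k))).card

/-- the family `y² = x³ + A x + B` over the fields generated by the `√D_i(t)` is admitted -/
structure IsFamily {n : Fin 3 → ℕ} (a : Fin 3 → ℤ) (f : ∀ k : Fin 3, Fin (n k) → ℤ[X]) {r : ℕ}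
    (D₀ : ℤ[X]) (D : Fin r → ℤ[X]) (A B e₁ e₂ e₃ : ℤ[X]) : Prop where
  ne_zero : ∀ k, a k ≠ 0
  irreducible : ∀ k i, Irreducible (f k i) ∧ 0 < (f k i).natDegree
  distinct : ∀ k i l j, (⟨k, i⟩ : Σ k : Fin 3, Fin (n k)) ≠ ⟨l, j⟩ → ¬ Associated (f k i) (f l j)
  rel : u a f 0 - u a f 1 = u a f 2
  not_dvd : ∀ k i, ¬ f k i ∣ D₀
  not_dvd' : ∀ l k i, ¬ f k i ∣ D l
  balanced : ∀ (T : Finset (Fin r)) (k : Fin 3),
      2 * n k + s (D₀ * ∏ i ∈ T, D i) a f k ≤ n 0 + n 1 + n 2
  smooth : ∀ (t : ℤ) (k : Fin 3), (D₀ * u a f k).eval t ≠ 0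
  smooth' : ∀ (t : ℤ) (i : Fin r), (D i).eval t ≠ 0
  roots : ∀ t x : ℤ, x ^ 3 + A.eval t * x + B.eval t =
      (x - e₁.eval t) * (x - e₂.eval t) * (x - e₃.eval t)
  diff₂ : e₂ - e₁ = D₀ * u a f 0
  diff₃ : e₃ - e₁ = D₀ * u a f 1

/-- the curve `W` over the number field `F` has rank and corank of the 2-primary part of the
Tate-Shafarevich group bounded by `R`: the numbers `q` for which `Ш` has a subgroup
`(ℚ₂ / ℤ₂) ^ q` are bounded, and `2 ^ (rank + largest such q) ≤ R` -/
def Bounded (R : ℝ) {F : Type} [Field F] [NumberField F] (W : WeierstrassCurve F) : Prop :=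
  BddAbove {q | HasDiv W q} ∧ (2 : ℝ) ^ (rk W + crk W) ≤ R

open Classical in
/-- **Theorem.** There are `0 < δ < 1` and `η > 0` such that for every admitted family
`W_t : y² = x³ + A(t) x + B(t)` over the fields `F_t = ℚ(√D₁(t), ..., √D_r(t))` and every `b` there
are `R` and `x₀` such that for all `x ≥ x₀` and all `y` with `x ^ (1 - δ) ≤ y ≤ x` at least
`η y / log x` primes `p` with `x < p ≤ x + y` have the following property: for all integers `t` with
`|t - p| ≤ b` the elliptic curve `W_t` over `F_t` is bounded by `R`. -/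
theorem result : ∃ δ η : ℝ, 0 < δ ∧ δ < 1 ∧ 0 < η ∧
    ∀ (n : Fin 3 → ℕ) (a : Fin 3 → ℤ) (f : ∀ k : Fin 3, Fin (n k) → ℤ[X]) (r : ℕ)
      (D₀ : ℤ[X]) (D : Fin r → ℤ[X]) (A B e₁ e₂ e₃ : ℤ[X]),
      IsFamily a f D₀ D A B e₁ e₂ e₃ → ∀ b : ℕ,
      ∃ R : ℝ, ∃ x₀ : ℕ, ∀ x y : ℕ, x₀ ≤ x → (x : ℝ) ^ (1 - δ) ≤ y → y ≤ x →
        η * (y / Real.log x) ≤ (((Ioc x (x + y)).filter (fun p : ℕ => p.Prime ∧
          ∀ t : ℤ, |t - p| ≤ b → ∀ (F : Type) [Field F] [NumberField F],
            Gen F (fun i => (D i).eval t) →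
              Bounded R (EF (A.eval t) (B.eval t) F))).card : ℝ) := by
  obtain ⟨δ, η, hδ, hδ1, hη, H⟩ := Pool.Agent.TH779.BS.shortPF
  refine ⟨δ, η, hδ, hδ1, hη, fun n a f r D₀ D A B e₁ e₂ e₃ hF b => ?_⟩
  have hF' : Pool.Agent.TH779.BS.IsFam a f D₀ D A B e₁ e₂ e₃ :=
    ⟨hF.ne_zero, ⟨fun x => (hF.irreducible x.1 x.2).1, fun x => (hF.irreducible x.1 x.2).2,
      fun x y hxy => hF.distinct x.1 x.2 y.1 y.2 hxy⟩, hF.rel, hF.not_dvd, hF.not_dvd',
      fun T => Pool.Agent.TH841.TR.bal_of (v := v (D₀ * ∏ i ∈ T, D i) a f) rfl rfl rfl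
        (hF.balanced T), hF.smooth, hF.smooth', hF.roots, hF.diff₂, hF.diff₃⟩
  exact H hF' b

end Pool.Agent.Results.MP_81dc49_nt.ShortIntervalFamilies
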